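import Pool.Agent.Y7.EJ.StmO

/-! Project EJ: assembly of the ODE theorem. -/

open Set Filter Topology MeasureTheory

set_option autoImplicit false

namespace Pool.Agent.Y643.EJ

open Pool.Agent.Y5 Pool.Agent.Y5.D Pool.Agent.Y7.EJ

variable {lm L C ℓ M hh : ℕ → ℝ} {B : ℕ → ℕ → ℝ} {T : ℝ} {x f : ℕ → ℝ → ℝ}

/-- the loss in the first `n` stages -/
noncomputable def rho (hh : ℕ → ℝ) (n : ℕ) : ℝ :=
  1 - hh 0 / 50 - ∑ i ∈ Finset.range n, hh i / 50

lemma rho_zero : rho hh 0 = 1 - hh 0 / 50 := by simp [rho]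

lemma rho_succ (n : ℕ) : rho hh (n + 1) = rho hh n - hh n / 50 := by
  simp [rho, Finset.sum_range_succ]; ring

lemma sumhh (q : SeqP lm L C ℓ M hh B) (n : ℕ) :
    ∑ i ∈ Finset.range n, hh i ≤ 2 * hh 0 - 2 * hh n := by
  induction n with
  | zero => simp
  | succ n ih =>
    rw [Finset.sum_range_succ]
    have h1 := q.hh_succ n
    have h2 := q.hh_pos n
    linarith

lemma rho_ge (q : SeqP lm L C ℓ M hh B) (n : ℕ) : 1 - hh 0 ≤ rho hh n := by
  have h1 := sumhh q n
  have h2 := q.hh_pos n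
  have h3 := q.hh_pos 0
  rw [rho, ← Finset.sum_div]
  linarith

lemma rho_ge9 (q : SeqP lm L C ℓ M hh B) (n : ℕ) : 9 / 10 ≤ rho hh n := by
  have h1 := rho_ge q n
  have h2 := q.hh_zero
  linarith

lemma eta_le (q : SeqP lm L C ℓ M hh B) (n : ℕ) :
    eta lm n ≤ Real.exp (-(lm n / 200)) := by
  rw [eta]
  apply Real.exp_le_exp.2
  have := slm q n
  linarith

/-- small integrals give the bounds of the high modes -/
lemma high (g : Gd lm L C ℓ M hh B T x f) {n : ℕ} {t : ℝ} (ht : t ∈ Ico 0 T)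
    (htl : t ≤ 4 * lm 0) (hI : ∑ i ∈ Finset.range (n + 1), Gd.I L x i t ≤ 1 / 10 * lm n) :
    ∀ m, n + 1 ≤ m → |x m t| ≤ Real.exp (-(lm (m - 1) / 200)) := by
  intro m hm
  have h1 := (g.TBall ht htl hI (m - 1) (by omega)).2 t ⟨ht.1, le_rfl⟩
  rw [Nat.sub_add_cancel (by omega)] at h1
  exact (g.abs_le_sqrt ht (le_refl m)).trans (h1.trans (eta_le g.sq _))

theorem main (hB : S_BASE) (hS : S_STAGE) (hT : S_TIME) (hTa : Pool.Agent.Y7.EJ.S_TAIL)
    (g : Gd lm L C ℓ M hh B T x f) : T ≤ 3 * lm 0 ∧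
    ((∀ n, ∃ t ∈ Ico 0 T, 1 - hh 0 ≤ x n t) ∨
      ∃ n₀, ∀ t ∈ Ico 0 T, ∀ m, n₀ ≤ m → |x m t| ≤ Real.exp (-(lm (m - 1) / 200))) := by
  have q := g.sq
  have hlm0 := slm q 0
  rcases hB lm L C ℓ M hh B T x f g with ⟨τ₀, hτ₀⟩ | ⟨hT2, hI⟩
  swap
  · refine ⟨by linarith, Or.inr ⟨2, fun t ht m hm => ?_⟩⟩
    exact high g ht (by have := ht.2; linarith) (hI t ht) m (by omega)
  by_cases hall : ∀ n, ∃ τ, St lm L hh T x n τ (rho hh n)
  · refine ⟨?_, Or.inl fun n => ?_⟩
    · by_contra hcon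
      push Not at hcon
      obtain ⟨Mx, hM⟩ := g.bdd (3 * lm 0) hcon
      have htend : Tendsto (fun n : ℕ => (2 : ℝ) ^ n * (1 / 2)) atTop atTop :=
        (tendsto_pow_atTop_atTop_of_one_lt one_lt_two).atTop_mul_const (by norm_num)
      obtain ⟨n, hn⟩ := (htend.eventually_gt_atTop Mx).exists
      obtain ⟨τ, h⟩ := hall n
      have hle : τ ≤ 3 * lm 0 := by
        have h1 := h.time
        have h2 : (0 : ℝ) ≤ (1 / 2) ^ n := by positivity
        nlinarith
      have h1 := hM τ ⟨h.τ0, hle⟩ n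
      have h2 : (2 : ℝ) ^ n * (1 / 2) ≤ L n ^ 10 * |x n τ| := by
        have h4 := h.car
        have h9 := h.ρ9
        have h5 := sLpow q n
        have h6 := sL1 q n
        have h8 : (2 : ℝ) ^ n ≤ (10 ^ 30) ^ n := by gcongr; norm_num
        have h10 : L n ≤ L n ^ 10 := by
          calc L n = L n ^ 1 := (pow_one _).symm
            _ ≤ L n ^ 10 := pow_le_pow_right₀ h6 (by norm_num)
        have h11 : (1 / 2 : ℝ) ≤ |x n τ| := by
          have := le_abs_self (x n τ)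
          linarith
        exact mul_le_mul ((h8.trans h5).trans h10) h11 (by norm_num) (by positivity)
      linarith
    · obtain ⟨τ, h⟩ := hall n
      exact ⟨τ, ⟨h.τ0, h.τT⟩, (rho_ge q n).trans h.car⟩
  · have hex : ∃ n τ, St lm L hh T x n τ (rho hh n) ∧ ∀ t ∈ Ico τ T, Gt lm L hh T x n τ t := by
      by_contra hcon
      push Not at hcon
      apply hall
      intro n
      induction n with
      | zero => exact ⟨τ₀, by rw [rho_zero]; exact hτ₀⟩
      | succ n ih =>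
        obtain ⟨τ, h⟩ := ih
        have h9 : 9 / 10 ≤ rho hh n - hh n / 50 := by
          rw [← rho_succ]; exact rho_ge9 q (n + 1)
        rcases hS lm L C ℓ M hh B T x f g n τ (rho hh n) h h9 with ⟨τ', _, h'⟩ | h'
        · exact ⟨τ', by rw [rho_succ]; exact h'⟩
        · exfalso
          obtain ⟨t, ht, h2⟩ := hcon n τ h
          exact h2 (h' t ht)
    obtain ⟨n, τ, h, hG⟩ := hex
    have hlt : ∀ t ∈ Ico τ T, t ≤ 3 * lm 0 := by
      intro t ht
      have h1 := (hT lm L C ℓ M hh B T x f g n τ (rho hh n) t h (hG t ht)).2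
      have h2 : (0 : ℝ) ≤ (1 / 2) ^ (n + 1) := by positivity
      nlinarith
    have hT3 : T ≤ 3 * lm 0 := by
      by_contra hcon
      push Not at hcon
      have hm : max τ (3 * lm 0) < T := max_lt h.τT hcon
      obtain ⟨t, ht1, ht2⟩ := exists_between hm
      have h1 := hlt t ⟨((le_max_left _ _).trans_lt ht1).le, ht2⟩
      have h2 := (le_max_right τ (3 * lm 0)).trans_lt ht1
      linarith
    refine ⟨hT3, Or.inr ⟨n + 3, fun t ht m hm => ?_⟩⟩
    -- the sum of the integrals at time t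
    have hS' : ∑ i ∈ Finset.range (n + 3), Gd.I L x i t ≤ 1 / 10 * lm (n + 2) := by
      have hs : max τ t ∈ Ico τ T := ⟨le_max_left _ _, max_lt h.τT ht.2⟩
      have h1 := ((hTa lm L C ℓ M hh B T x f g n τ (rho hh n) h).2.2 (max τ t)
        (hG _ hs)).2.2.1
      refine le_trans ?_ h1
      exact Finset.sum_le_sum fun i _ => g.I_mono i ht.1 (le_max_right _ _) hs.2
    exact high g (n := n + 2) ht (by have := ht.2; linarith) hS' m (by omega)

theorem t_ODEP (hB : S_BASE) (hS : S_STAGE) (hT : S_TIME) (hTa : Pool.Agent.Y7.EJ.S_TAIL) : S_ODEP := by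
  intro lm L C ℓ M hh B q
  refine ⟨ph lm, fun n => ph_pos lm n, 3 * lm 0, by have := slm q 0; positivity, ?_⟩
  intro T x f hT0 hder hbdd hen hf h0 hn
  have g : Gd lm L C ℓ M hh B T x f := ⟨q, hT0, hder, hbdd, hen, hf, h0, hn⟩
  exact main hB hS hT hTa g

end Pool.Agent.Y643.EJ
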